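import Pool.Agent.H91.RD.Targets

open MeasureTheory Set Filter Topology Metric
open Pool.Agent.H29.TF
open Pool.Agent.H91.RD

namespace Pool.Agent.H54.RD

/-- the standard orthonormal basis of `E N` -/
noncomputable abbrev bs (N : ℕ) : OrthonormalBasis (Fin N) ℝ (E N) := EuclideanSpace.basisFun (Fin N) ℝ

/-- the Laplacian as a sum of second directional derivatives -/
theorem lap_eq {N : ℕ} {f : E N → ℝ} (hf : ContDiff ℝ 2 f) (x : E N) :
    Laplacian.laplacian f x =
      ∑ i, fderiv ℝ (fun y => fderiv ℝ f y (bs N i)) x (bs N i) := by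
  have h1 := congrFun (InnerProductSpace.laplacian_eq_iteratedFDeriv_orthonormalBasis f (bs N)) x
  rw [h1]
  refine Finset.sum_congr rfl fun i _ => ?_
  rw [iteratedFDeriv_two_apply]
  have hd : DifferentiableAt ℝ (fderiv ℝ f) x :=
    ((hf.fderiv_right (m := 1) (by norm_num)).differentiable (by norm_num)) x
  have h2 := (ContinuousLinearMap.apply ℝ ℝ (bs N i)).hasFDerivAt.comp x hd.hasFDerivAt
  have h3 : (fun y => fderiv ℝ f y (bs N i)) =
      (ContinuousLinearMap.apply ℝ ℝ (bs N i)) ∘ (fderiv ℝ f) := by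
    ext y; rfl
  rw [h3, h2.fderiv]
  rfl

theorem contDiff_hk {N : ℕ} (t : ℝ) : ContDiff ℝ 2 (fun z : E N => hk t z) := by
  unfold hk
  apply ContDiff.mul contDiff_const
  apply ContDiff.exp
  exact ((contDiff_norm_sq ℝ).neg).div_const _

theorem lap_hk {N : ℕ} {t : ℝ} (ht : 0 < t) (z : E N) :
    Laplacian.laplacian (fun z : E N => hk t z) z =
      hk t z * (‖z‖ ^ 2 / (4 * t ^ 2) - N / (2 * t)) := by
  rw [lap_eq (contDiff_hk t)]
  have h1 : ∀ v : E N, ∀ z : E N, fderiv ℝ (fun z : E N => hk t z) z v =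
      -(1 / (2 * t)) * (hk t z * inner ℝ z v) := by
    intro v z
    rw [(hasFDerivAt_hk ht z).fderiv]
    simp only [smul_apply, innerSL_apply_apply, smul_eq_mul]
    ring
  have h2 : ∀ v : E N, fderiv ℝ (fun y => fderiv ℝ (fun z : E N => hk t z) y v) z v =
      hk t z * (inner ℝ z v ^ 2 / (4 * t ^ 2) - ‖v‖ ^ 2 / (2 * t)) := by
    intro v
    simp_rw [h1 v]
    have hi : HasFDerivAt (fun z : E N => inner ℝ z v) (innerSL ℝ v : E N →L[ℝ] ℝ) z := by
      have := (innerSL ℝ v : E N →L[ℝ] ℝ).hasFDerivAt (x := z)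
      refine this.congr_of_eventuallyEq (Filter.Eventually.of_forall fun y => ?_)
      simp only [innerSL_apply_apply]
      exact real_inner_comm _ _
    have h3 : HasFDerivAt (fun y : E N => -(1 / (2 * t)) * (hk t y * inner ℝ y v))
        (-(1 / (2 * t)) • (hk t z • (innerSL ℝ v : E N →L[ℝ] ℝ) +
          (inner ℝ z v : ℝ) • (-(1 / (2 * t)) * hk t z) • (innerSL ℝ z : E N →L[ℝ] ℝ))) z :=
      ((hasFDerivAt_hk ht z).mul hi).const_mul (-(1 / (2 * t)))
    rw [h3.fderiv]
    simp only [smul_apply, add_apply, innerSL_apply_apply,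
      smul_eq_mul, real_inner_self_eq_norm_sq]
    field_simp
    ring
  simp_rw [h2]
  rw [← Finset.mul_sum, Finset.sum_sub_distrib, ← Finset.sum_div]
  congr 1
  have h4 : ∑ i, inner ℝ z (bs N i) ^ 2 = ‖z‖ ^ 2 := by
    have := (bs N).sum_sq_norm_inner_left z
    simpa using this
  rw [h4]
  simp
  ring

theorem hke : T_HKE := by
  intro N t ht z
  refine ⟨contDiff_hk t, ?_, lap_hk ht z⟩
  rw [lap_hk ht z]
  unfold hk
  rw [finrank_euclideanSpace_fin]
  have h1 : HasDerivAt (fun s : ℝ => (4 * Real.pi * s) ^ (-(N : ℝ) / 2))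
      (-(N : ℝ) / (2 * t) * (4 * Real.pi * t) ^ (-(N : ℝ) / 2)) t := by
    have h := ((hasDerivAt_id t).const_mul (4 * Real.pi)).rpow_const (p := -(N : ℝ) / 2)
      (Or.inl (by simp only [id]; positivity))
    refine h.congr_deriv ?_
    simp only [id]
    rw [Real.rpow_sub (by positivity), Real.rpow_one]
    field_simp
  have h2 : HasDerivAt (fun s : ℝ => -‖z‖ ^ 2 / (4 * s)) (‖z‖ ^ 2 / (4 * t ^ 2)) t := by
    have h := (hasDerivAt_const t (-‖z‖ ^ 2)).div ((hasDerivAt_id t).const_mul 4)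
      (by simp only [id]; positivity)
    refine h.congr_deriv ?_
    simp only [id]
    field_simp
    ring
  refine (h1.mul h2.exp).congr_deriv ?_
  ring

end Pool.Agent.H54.RD
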