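import Pool.Agent.H91.RD.Targets

open MeasureTheory Set Filter Topology Metric
open Pool.Agent.H29.TF
open Pool.Agent.H91.RD

namespace Pool.Agent.H54.RD

theorem expi_point {N : ℕ} {lam ε M a τ : ℝ} (hM : 0 < M) (ha : 0 < a)
    (haM : a = 1 - 1 / M) (hτ : 0 < τ) {e : E N} (he : ‖e‖ = 1) (z : E N) :
    hk τ z * Real.exp (lam * inner ℝ z e + ε * ‖z‖) ≤
      a ^ (-(N : ℝ) / 2) * Real.exp ((lam ^ 2 / a + M * ε ^ 2) * τ) *
        hk (τ / a) (z - (2 * τ * lam / a) • e) := by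
  unfold hk
  rw [finrank_euclideanSpace_fin]
  have e2 : (4 * Real.pi * τ) ^ (-(N : ℝ) / 2) =
      a ^ (-(N : ℝ) / 2) * (4 * Real.pi * (τ / a)) ^ (-(N : ℝ) / 2) := by
    rw [← Real.mul_rpow (by positivity) (by positivity)]; congr 1; field_simp
  have hn : ‖z - (2 * τ * lam / a) • e‖ ^ 2 =
      ‖z‖ ^ 2 - (4 * τ * lam / a) * inner ℝ z e + (2 * τ * lam / a) ^ 2 := by
    rw [norm_sub_sq_real, inner_smul_right, norm_smul, he, mul_one, Real.norm_eq_abs, sq_abs]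
    ring
  have key : -‖z‖ ^ 2 / (4 * τ) + (lam * inner ℝ z e + ε * ‖z‖) ≤
      (lam ^ 2 / a + M * ε ^ 2) * τ + -‖z - (2 * τ * lam / a) • e‖ ^ 2 / (4 * (τ / a)) := by
    rw [hn]
    have h1 : ε * ‖z‖ ≤ M * ε ^ 2 * τ + ‖z‖ ^ 2 / (4 * M * τ) := by
      have h0 : 0 ≤ (2 * M * τ * ε - ‖z‖) ^ 2 / (4 * M * τ) := by positivity
      have h00 : (2 * M * τ * ε - ‖z‖) ^ 2 / (4 * M * τ) =
          M * ε ^ 2 * τ + ‖z‖ ^ 2 / (4 * M * τ) - ε * ‖z‖ := by
        field_simp; ring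
      linarith
    have h2 : -‖z‖ ^ 2 / (4 * τ) + ‖z‖ ^ 2 / (4 * M * τ) = -(a * ‖z‖ ^ 2 / (4 * τ)) := by
      rw [haM]; field_simp; ring
    have h3 : -(‖z‖ ^ 2 - (4 * τ * lam / a) * inner ℝ z e + (2 * τ * lam / a) ^ 2) /
        (4 * (τ / a)) = -(a * ‖z‖ ^ 2 / (4 * τ)) + lam * inner ℝ z e - lam ^ 2 / a * τ := by
      field_simp; ring
    rw [h3]
    nlinarith [h1, h2]
  rw [e2]
  calc a ^ (-(N : ℝ) / 2) * (4 * Real.pi * (τ / a)) ^ (-(N : ℝ) / 2) *
        Real.exp (-‖z‖ ^ 2 / (4 * τ)) * Real.exp (lam * inner ℝ z e + ε * ‖z‖)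
      = a ^ (-(N : ℝ) / 2) * (4 * Real.pi * (τ / a)) ^ (-(N : ℝ) / 2) *
        Real.exp (-‖z‖ ^ 2 / (4 * τ) + (lam * inner ℝ z e + ε * ‖z‖)) := by
        rw [Real.exp_add (-‖z‖ ^ 2 / (4 * τ))]; ring
    _ ≤ a ^ (-(N : ℝ) / 2) * (4 * Real.pi * (τ / a)) ^ (-(N : ℝ) / 2) *
        Real.exp ((lam ^ 2 / a + M * ε ^ 2) * τ +
          -‖z - (2 * τ * lam / a) • e‖ ^ 2 / (4 * (τ / a))) :=
        mul_le_mul_of_nonneg_left (Real.exp_le_exp.2 key) (by positivity)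
    _ = _ := by rw [Real.exp_add]; ring

theorem expi : T_EXPI := by
  intro N lam κ hlam hκ
  set M : ℝ := 2 + 2 * lam ^ 2 / κ with hM
  have hM1 : 2 ≤ M := by rw [hM]; have : 0 ≤ 2 * lam ^ 2 / κ := by positivity
                         linarith
  have hM0 : 0 < M := by linarith
  set a : ℝ := 1 - 1 / M with ha
  have ha0 : 0 < a := by
    rw [ha]
    have : 1 / M ≤ 1 / 2 := one_div_le_one_div_of_le (by norm_num) hM1
    linarith
  have ha1 : a ≤ 1 := by rw [ha]; have : 0 < 1 / M := by positivity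
                         linarith
  set ε : ℝ := min (min κ 1) (κ / (2 * M)) with hε
  have hε0 : 0 < ε := by
    rw [hε]; exact lt_min (lt_min hκ one_pos) (by positivity)
  have hε1 : ε ≤ κ := (min_le_left _ _).trans (min_le_left _ _)
  have hε2 : ε ≤ 1 := (min_le_left _ _).trans (min_le_right _ _)
  have hε3 : ε ≤ κ / (2 * M) := min_le_right _ _
  have hMε : M * ε ^ 2 ≤ κ / 2 := by
    have h1 : M * ε ≤ κ / 2 := by
      calc M * ε ≤ M * (κ / (2 * M)) := mul_le_mul_of_nonneg_left hε3 hM0.le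
        _ = κ / 2 := by field_simp
    calc M * ε ^ 2 = (M * ε) * ε := by ring
      _ ≤ (M * ε) * 1 := mul_le_mul_of_nonneg_left hε2 (by positivity)
      _ ≤ κ / 2 := by linarith
  have hla : lam ^ 2 / a ≤ lam ^ 2 + κ / 2 := by
    rw [div_le_iff₀ ha0, ha, hM]
    have hk : 0 < 2 + 2 * lam ^ 2 / κ := by positivity
    have e1 : (lam ^ 2 + κ / 2) * (1 - 1 / (2 + 2 * lam ^ 2 / κ)) - lam ^ 2 =
      κ / 2 - (lam ^ 2 + κ / 2) / (2 + 2 * lam ^ 2 / κ) := by ring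
    have e2 : (lam ^ 2 + κ / 2) / (2 + 2 * lam ^ 2 / κ) ≤ κ / 2 := by
      rw [div_le_iff₀ hk]
      have : κ / 2 * (2 + 2 * lam ^ 2 / κ) = κ + lam ^ 2 := by field_simp
      rw [this]; linarith
    linarith
  refine ⟨ε, a ^ (-(N : ℝ) / 2), hε0, hε1, ?_, ?_⟩
  · apply Real.one_le_rpow_of_pos_of_le_one_of_nonpos ha0 ha1
    have : (0 : ℝ) ≤ N := Nat.cast_nonneg N
    linarith
  intro e he τ hτ x
  set z0 : E N := (2 * τ * lam / a) • e with hz0
  have hpt : ∀ y : E N, hk τ (x - y) * Real.exp (-(lam * inner ℝ y e) + ε * ‖y‖) ≤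
      (a ^ (-(N : ℝ) / 2) * Real.exp ((lam ^ 2 + κ) * τ) *
        Real.exp (-(lam * inner ℝ x e) + ε * ‖x‖)) * hk (τ / a) ((x - z0) - y) := by
    intro y
    have h1 := expi_point (lam := lam) (ε := ε) hM0 ha0 ha hτ he (x - y)
    have h2 : Real.exp (-(lam * inner ℝ y e) + ε * ‖y‖) ≤
        Real.exp (-(lam * inner ℝ x e) + ε * ‖x‖) *
          Real.exp (lam * inner ℝ (x - y) e + ε * ‖x - y‖) := by
      rw [← Real.exp_add]
      apply Real.exp_le_exp.2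
      rw [inner_sub_left]
      have : ‖y‖ ≤ ‖x‖ + ‖x - y‖ := by
        calc ‖y‖ = ‖x - (x - y)‖ := by congr 1; abel
          _ ≤ ‖x‖ + ‖x - y‖ := norm_sub_le _ _
      nlinarith [mul_le_mul_of_nonneg_left this hε0.le]
    have h3 : Real.exp ((lam ^ 2 / a + M * ε ^ 2) * τ) ≤ Real.exp ((lam ^ 2 + κ) * τ) := by
      apply Real.exp_le_exp.2
      apply mul_le_mul_of_nonneg_right _ hτ.le
      linarith
    have e0 : (x - z0) - y = (x - y) - z0 := by abel
    rw [e0]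
    calc hk τ (x - y) * Real.exp (-(lam * inner ℝ y e) + ε * ‖y‖)
        ≤ hk τ (x - y) * (Real.exp (-(lam * inner ℝ x e) + ε * ‖x‖) *
          Real.exp (lam * inner ℝ (x - y) e + ε * ‖x - y‖)) :=
          mul_le_mul_of_nonneg_left h2 (hk_nonneg hτ.le _)
      _ = Real.exp (-(lam * inner ℝ x e) + ε * ‖x‖) *
          (hk τ (x - y) * Real.exp (lam * inner ℝ (x - y) e + ε * ‖x - y‖)) := by ring
      _ ≤ Real.exp (-(lam * inner ℝ x e) + ε * ‖x‖) *
          (a ^ (-(N : ℝ) / 2) * Real.exp ((lam ^ 2 / a + M * ε ^ 2) * τ) *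
            hk (τ / a) ((x - y) - z0)) := mul_le_mul_of_nonneg_left h1 (Real.exp_nonneg _)
      _ ≤ Real.exp (-(lam * inner ℝ x e) + ε * ‖x‖) *
          (a ^ (-(N : ℝ) / 2) * Real.exp ((lam ^ 2 + κ) * τ) *
            hk (τ / a) ((x - y) - z0)) := by
          apply mul_le_mul_of_nonneg_left _ (Real.exp_nonneg _)
          apply mul_le_mul_of_nonneg_right _ (hk_nonneg (by positivity) _)
          exact mul_le_mul_of_nonneg_left h3 (by positivity)
      _ = _ := by ring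
  have hτa : 0 < τ / a := by positivity
  have hint2 : Integrable (fun y : E N =>
      (a ^ (-(N : ℝ) / 2) * Real.exp ((lam ^ 2 + κ) * τ) *
        Real.exp (-(lam * inner ℝ x e) + ε * ‖x‖)) * hk (τ / a) ((x - z0) - y)) :=
    (integrable_hk_sub hτa (x - z0)).const_mul _
  have hint : Integrable (fun y : E N =>
      hk τ (x - y) * Real.exp (-(lam * inner ℝ y e) + ε * ‖y‖)) := by
    refine Integrable.mono' hint2
      (Continuous.aestronglyMeasurable (by fun_prop)) (Filter.Eventually.of_forall fun y => ?_)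
    rw [Real.norm_of_nonneg (mul_nonneg (hk_nonneg hτ.le _) (Real.exp_nonneg _))]
    exact hpt y
  refine ⟨hint, ?_⟩
  have h1 := integral_mono hint hint2 hpt
  rw [integral_const_mul, integral_hk_sub (by positivity), mul_one] at h1
  exact h1

end Pool.Agent.H54.RD
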