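import Pool.Agent.H91.RD.Targets

open MeasureTheory Set Filter Topology Metric
open Pool.Agent.H29.TF
open Pool.Agent.H91.RD

namespace Pool.Agent.H54.RD

theorem mul_exp_le {s : ℝ} : s ≤ 2 * Real.exp (s ^ 2 / 8) := by
  have h := Real.add_one_le_exp (s ^ 2 / 8)
  nlinarith [sq_nonneg (s - 2)]

theorem norm_hk_point {N : ℕ} {t : ℝ} (ht : 0 < t) (z : E N) :
    hk t z * ‖z‖ ≤ (2 * 2 ^ ((N : ℝ) / 2) * √t) * hk (2 * t) z := by
  have hst : 0 < √t := Real.sqrt_pos.2 ht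
  have h1 : ‖z‖ ≤ √t * (2 * Real.exp (‖z‖ ^ 2 / (8 * t))) := by
    have h := mul_exp_le (s := ‖z‖ / √t)
    rw [div_pow, Real.sq_sqrt ht.le, div_le_iff₀ hst] at h
    have e : ‖z‖ ^ 2 / t / 8 = ‖z‖ ^ 2 / (8 * t) := by field_simp
    rw [e] at h
    linarith
  unfold hk
  rw [finrank_euclideanSpace_fin]
  have e1 : Real.exp (-‖z‖ ^ 2 / (4 * t)) * Real.exp (‖z‖ ^ 2 / (8 * t)) =
      Real.exp (-‖z‖ ^ 2 / (4 * (2 * t))) := by
    rw [← Real.exp_add]; congr 1; field_simp; ring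
  have e2 : (4 * Real.pi * (2 * t)) ^ (-(N : ℝ) / 2) =
      (2 : ℝ) ^ (-((N : ℝ) / 2)) * (4 * Real.pi * t) ^ (-(N : ℝ) / 2) := by
    rw [← neg_div, ← Real.mul_rpow (by positivity) (by positivity)]; congr 1; ring
  have e3 : (2 : ℝ) ^ ((N : ℝ) / 2) * (2 : ℝ) ^ (-((N : ℝ) / 2)) = 1 := by
    rw [← Real.rpow_add (by norm_num)]; simp
  rw [e2]
  calc (4 * Real.pi * t) ^ (-(N : ℝ) / 2) * Real.exp (-‖z‖ ^ 2 / (4 * t)) * ‖z‖
      ≤ (4 * Real.pi * t) ^ (-(N : ℝ) / 2) * Real.exp (-‖z‖ ^ 2 / (4 * t)) *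
        (√t * (2 * Real.exp (‖z‖ ^ 2 / (8 * t)))) :=
        mul_le_mul_of_nonneg_left h1 (by positivity)
    _ = (4 * Real.pi * t) ^ (-(N : ℝ) / 2) * 2 * √t *
        (Real.exp (-‖z‖ ^ 2 / (4 * t)) * Real.exp (‖z‖ ^ 2 / (8 * t))) := by ring
    _ = ((2 : ℝ) ^ ((N : ℝ) / 2) * (2 : ℝ) ^ (-((N : ℝ) / 2))) *
        ((4 * Real.pi * t) ^ (-(N : ℝ) / 2) * 2 * √t *
        Real.exp (-‖z‖ ^ 2 / (4 * (2 * t)))) := by rw [e1, e3, one_mul]
    _ = _ := by ring

theorem grad : T_GRAD := by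
  intro N
  have hA1 : (1 : ℝ) ≤ 2 ^ ((N : ℝ) / 2) := by
    apply Real.one_le_rpow (by norm_num)
    have : (0 : ℝ) ≤ N := Nat.cast_nonneg N
    linarith
  have hmom : ∀ t : ℝ, 0 < t → Integrable (fun z : E N => hk t z * ‖z‖) ∧
      ∫ z : E N, hk t z * ‖z‖ ≤ (2 * 2 ^ ((N : ℝ) / 2)) * √t := by
    intro t ht
    have h2t : 0 < 2 * t := by linarith
    have hint2 : Integrable (fun z : E N => (2 * 2 ^ ((N : ℝ) / 2) * √t) * hk (2 * t) z) :=
      (integrable_hk h2t).const_mul _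
    have hint : Integrable (fun z : E N => hk t z * ‖z‖) := by
      refine Integrable.mono' hint2 (Continuous.aestronglyMeasurable (by fun_prop))
        (Filter.Eventually.of_forall fun z => ?_)
      rw [Real.norm_of_nonneg (mul_nonneg (hk_nonneg ht.le _) (norm_nonneg _))]
      exact norm_hk_point ht z
    refine ⟨hint, ?_⟩
    have h1 := integral_mono hint hint2 (fun z => norm_hk_point ht z)
    rwa [integral_const_mul, integral_hk h2t, mul_one] at h1
  refine ⟨2 * 2 ^ ((N : ℝ) / 2), by linarith, ?_, hmom⟩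
  intro t ht g M hg hM x y
  have hM0 : 0 ≤ M := (abs_nonneg _).trans (hM 0)
  have hst : 0 < √t := Real.sqrt_pos.2 ht
  obtain ⟨hm1, hm2⟩ := hmom t ht
  have hder : ∀ x : E N, ‖∫ y, (-(1 / (2 * t)) * (hk t (x - y) * g y)) •
      (innerSL ℝ (x - y) : E N →L[ℝ] ℝ)‖ ≤ 2 * 2 ^ ((N : ℝ) / 2) * M / √t := by
    intro x
    have hb : Integrable (fun y : E N => (M / (2 * t)) * (hk t (x - y) * ‖x - y‖)) :=
      (hm1.comp_sub_left x).const_mul _
    refine (norm_integral_le_of_norm_le hb (Filter.Eventually.of_forall fun y => ?_)).trans ?_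
    · rw [norm_smul, innerSL_apply_norm, norm_mul, norm_neg, norm_mul,
        Real.norm_of_nonneg (by positivity : 0 ≤ 1 / (2 * t)),
        Real.norm_of_nonneg (hk_nonneg ht.le _), Real.norm_eq_abs]
      have : hk t (x - y) * |g y| * ‖x - y‖ ≤ hk t (x - y) * M * ‖x - y‖ :=
        mul_le_mul_of_nonneg_right (mul_le_mul_of_nonneg_left (hM y) (hk_nonneg ht.le _))
          (norm_nonneg _)
      calc 1 / (2 * t) * (hk t (x - y) * |g y|) * ‖x - y‖
          = 1 / (2 * t) * (hk t (x - y) * |g y| * ‖x - y‖) := by ring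
        _ ≤ 1 / (2 * t) * (hk t (x - y) * M * ‖x - y‖) :=
            mul_le_mul_of_nonneg_left this (by positivity)
        _ = _ := by ring
    · rw [integral_const_mul, integral_sub_left_eq_self (fun z : E N => hk t z * ‖z‖) volume x]
      calc M / (2 * t) * ∫ z : E N, hk t z * ‖z‖
          ≤ M / (2 * t) * ((2 * 2 ^ ((N : ℝ) / 2)) * √t) :=
            mul_le_mul_of_nonneg_left hm2 (by positivity)
        _ ≤ (M / t) * ((2 * 2 ^ ((N : ℝ) / 2)) * √t) := by
            apply mul_le_mul_of_nonneg_right _ (by positivity)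
            apply div_le_div_of_nonneg_left hM0 ht (by linarith)
        _ = _ := by
            have : (t : ℝ) = √t * √t := (Real.mul_self_sqrt ht.le).symm
            rw [div_mul_eq_mul_div, div_eq_div_iff ht.ne' hst.ne']
            nth_rewrite 3 [this]
            ring
  have := Convex.norm_image_sub_le_of_norm_hasFDerivWithin_le (𝕜 := ℝ) (f := P t g)
    (f' := fun x => ∫ y, (-(1 / (2 * t)) * (hk t (x - y) * g y)) •
      (innerSL ℝ (x - y) : E N →L[ℝ] ℝ)) (s := univ) (x := y) (y := x)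
    (C := 2 * 2 ^ ((N : ℝ) / 2) * M / √t)
    (fun x _ => (hasFDerivAt_P ht hg hM x).hasFDerivWithinAt) (fun x _ => hder x) convex_univ
    (mem_univ _) (mem_univ _)
  rwa [Real.norm_eq_abs] at this

end Pool.Agent.H54.RD
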