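import Pool.Agent.H54.RD.Hke

open MeasureTheory Set Filter Topology Metric
open Pool.Agent.H29.TF
open Pool.Agent.H91.RD

namespace Pool.Agent.H54.RD

theorem contDiff_dir {N : ℕ} {f : E N → ℝ} {n m : ℕ∞} (hnm : m + 1 ≤ n) (hf : ContDiff ℝ n f) (v : E N) :
    ContDiff ℝ m (fun y => fderiv ℝ f y v) :=
  (hf.fderiv_right (by exact_mod_cast hnm)).clm_apply contDiff_const

theorem ibp : T_IBP := by
  intro N g w hg hgc hw
  simp_rw [lap_eq hg, lap_eq hw]
  simp_rw [Finset.mul_sum, Finset.sum_mul]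
  have hg1 : ∀ i, ContDiff ℝ 1 (fun y => fderiv ℝ g y (bs N i)) := fun i =>
    contDiff_dir (n := 2) (m := 1) (by norm_num) hg _
  have hw1 : ∀ i, ContDiff ℝ 1 (fun y => fderiv ℝ w y (bs N i)) := fun i =>
    contDiff_dir (n := 2) (m := 1) (by norm_num) hw _
  have hg2 : ∀ i, Continuous (fun x => fderiv ℝ (fun y => fderiv ℝ g y (bs N i)) x (bs N i)) :=
    fun i => (contDiff_dir (n := 1) (m := 0) (by norm_num) (hg1 i) _).continuous
  have hw2 : ∀ i, Continuous (fun x => fderiv ℝ (fun y => fderiv ℝ w y (bs N i)) x (bs N i)) :=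
    fun i => (contDiff_dir (n := 1) (m := 0) (by norm_num) (hw1 i) _).continuous
  have hgc1 : ∀ i, HasCompactSupport (fun y => fderiv ℝ g y (bs N i)) := fun i =>
    hgc.fderiv_apply (𝕜 := ℝ) (bs N i)
  have hgc2 : ∀ i, HasCompactSupport
      (fun x => fderiv ℝ (fun y => fderiv ℝ g y (bs N i)) x (bs N i)) := fun i =>
    (hgc1 i).fderiv_apply (𝕜 := ℝ) (bs N i)
  have I1 : ∀ i, Integrable
      (fun x => g x * fderiv ℝ (fun y => fderiv ℝ w y (bs N i)) x (bs N i)) := fun i =>
    (hg.continuous.mul (hw2 i)).integrable_of_hasCompactSupport hgc.mul_right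
  have I2 : ∀ i, Integrable
      (fun x => fderiv ℝ (fun y => fderiv ℝ g y (bs N i)) x (bs N i) * w x) := fun i =>
    ((hg2 i).mul hw.continuous).integrable_of_hasCompactSupport (hgc2 i).mul_right
  have I3 : ∀ i, Integrable
      (fun x => fderiv ℝ g x (bs N i) * fderiv ℝ w x (bs N i)) := fun i =>
    ((hg1 i).continuous.mul (hw1 i).continuous).integrable_of_hasCompactSupport (hgc1 i).mul_right
  have I4 : ∀ i, Integrable (fun x => g x * fderiv ℝ w x (bs N i)) := fun i =>
    (hg.continuous.mul (hw1 i).continuous).integrable_of_hasCompactSupport hgc.mul_right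
  have I5 : ∀ i, Integrable (fun x => fderiv ℝ g x (bs N i) * w x) := fun i =>
    ((hg1 i).continuous.mul hw.continuous).integrable_of_hasCompactSupport (hgc1 i).mul_right
  rw [integral_finsetSum _ fun i _ => I1 i, integral_finsetSum _ fun i _ => I2 i]
  refine Finset.sum_congr rfl fun i _ => ?_
  rw [integral_mul_fderiv_eq_neg_fderiv_mul_of_integrable (I3 i) (I1 i) (I4 i)
    (fun x _ => (hg.differentiable (by norm_num)) x)
    (fun x _ => ((hw1 i).differentiable (by norm_num)) x),
    integral_mul_fderiv_eq_neg_fderiv_mul_of_integrable (f := fun x => fderiv ℝ g x (bs N i))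
    (g := w) (I2 i) (I3 i) (I5 i)
    (fun x _ => ((hg1 i).differentiable (by norm_num)) x)
    (fun x _ => (hw.differentiable (by norm_num)) x), neg_neg]

end Pool.Agent.H54.RD
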