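import Pool.Agent.H91.RD.Targets

open MeasureTheory Set Filter Topology Metric
open Pool.Agent.H29.TF
open Pool.Agent.H91.RD

namespace Pool.Agent.H54.RD

theorem hk_split {N : ℕ} {ε t : ℝ} (hε : 0 < ε) (ht : 0 < t) (z : E N) :
    hk t z = Real.exp (-((1 - ε) * ‖z‖ ^ 2 / (4 * t))) * ε ^ (-(N : ℝ) / 2) * hk (t / ε) z := by
  unfold hk
  rw [finrank_euclideanSpace_fin]
  have e1 : Real.exp (-‖z‖ ^ 2 / (4 * t)) =
      Real.exp (-((1 - ε) * ‖z‖ ^ 2 / (4 * t))) * Real.exp (-‖z‖ ^ 2 / (4 * (t / ε))) := by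
    rw [← Real.exp_add]; congr 1; field_simp; ring
  have e2 : (4 * Real.pi * t) ^ (-(N : ℝ) / 2) =
      ε ^ (-(N : ℝ) / 2) * (4 * Real.pi * (t / ε)) ^ (-(N : ℝ) / 2) := by
    rw [← Real.mul_rpow (by positivity) (by positivity)]; congr 1; field_simp
  rw [e1, e2]; ring

theorem tail : T_TAIL := by
  intro N ε t r hε hε1 ht hr x g hg hg01 hgr
  have hC : ∀ y, |g y| ≤ 1 := fun y => by
    rw [abs_of_nonneg (hg01 y).1]; exact (hg01 y).2
  have h1 : P t g x ≤ ∫ y, (ε ^ (-(N : ℝ) / 2) * Real.exp (-((1 - ε) * r ^ 2 / (4 * t)))) *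
      hk (t / ε) (x - y) := by
    unfold P
    refine integral_mono (integrable_hk_mul ht hg hC x)
      ((integrable_hk_sub (by positivity) x).const_mul _) fun y => ?_
    dsimp only
    by_cases hy : dist x y < r
    · rw [hgr y hy, mul_zero]
      exact mul_nonneg (by positivity) (hk_nonneg (by positivity) _)
    · have hy' : r ≤ ‖x - y‖ := by rw [← dist_eq_norm]; exact not_lt.1 hy
      calc hk t (x - y) * g y ≤ hk t (x - y) * 1 :=
            mul_le_mul_of_nonneg_left (hg01 y).2 (hk_nonneg ht.le _)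
        _ = Real.exp (-((1 - ε) * ‖x - y‖ ^ 2 / (4 * t))) * ε ^ (-(N : ℝ) / 2) *
            hk (t / ε) (x - y) := by rw [mul_one, hk_split hε ht]
        _ ≤ _ := by
          apply mul_le_mul_of_nonneg_right _ (hk_nonneg (by positivity) _)
          rw [mul_comm]
          apply mul_le_mul_of_nonneg_left _ (by positivity)
          apply Real.exp_le_exp.2
          apply neg_le_neg
          have : r ^ 2 ≤ ‖x - y‖ ^ 2 := pow_le_pow_left₀ hr hy' 2
          have h1e : 0 ≤ 1 - ε := by linarith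
          gcongr
  rwa [integral_const_mul, integral_hk_sub (by positivity), mul_one] at h1

end Pool.Agent.H54.RD
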